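import Mathlib
import Pool.Agent.V1156.RC.Rel

/-!
# Rémond's inequality from large values of products of cyclotomic polynomials

Let `F` be any field of complex numbers, for instance `F = ℚ(Γ_div)` for a subgroup `Γ` of `ℂ*`. Let
`α` be an algebraic integer of degree `d` over `F` (that is `d = D_Γ(α)` for `F = ℚ(Γ_div)`), let
`b = ∏ m ∈ 𝒟, Φ_m` be a product of distinct cyclotomic polynomials, of degree `t ≤ d`, let
`n = [ℚ(α) : ℚ]` and `ℓ = log |N(b(α))| / n`, with `N` the norm from `ℚ(α)` to `ℚ`. Then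

* if `d ℓ ≥ 80 √(d t) (1 + log d)`, then `h(α) ≥ min (ℓ, ℓ ^ 2 / (1 + log d)) / (1600 t)`;
* if `h(α) > 0`, no quotient of two distinct conjugates of `α` over `F` is a root of unity, `𝒟`
  contains the divisors of its elements and `d ℓ ≥ 200 √(d t)`, then
  `d h(α) ≥ min (1 + log d, (d ℓ / (200 √(d t))) ^ 4 / (1 + log d) ^ 3)`.

For example, let `Γ` be any subgroup of `ℂ*`, `F = ℚ(Γ_div)`, and let `1 ≤ q ≤ D_Γ(α)`. If
`log |N(α ^ q - 1)| / n ≥ 200 √(q / D_Γ(α)) (1 + log D_Γ(α)) ^ (3/4)` then Rémond's inequality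
`h(α) ≥ 1 / D_Γ(α)` holds (for `α` with `h(α) > 0` none of whose conjugates over `ℚ(Γ_div)`, besides
`α`, is the product of `α` and a root of unity; stated for pairs of conjugates below). The constants
do not depend on `Γ` and on `q`.

Method: energy of the conjugates over `F` of `α, α ^ 2, …, α ^ k` and of `w` charges on a small
circle around every zero of `b`, for every embedding of the Galois closure of `ℚ(α)`. The energy of
the zeros of `b` is nonnegative, and the self-energy of the charges is only of order `t w ^ 2 log d`.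
One takes `w` of order `√(d k / t)`.
-/

set_option autoImplicit false

open Polynomial

namespace Pool.Agent.Results.MP_f61260_nt.CyclotomicNorms

/-- The absolute logarithmic Weil height of an algebraic integer. -/
noncomputable def height (α : ℂ) : ℝ :=
  Real.log ((minpoly ℤ α).map (Int.castRingHom ℂ)).mahlerMeasure / (minpoly ℤ α).natDegree

/-- The absolute value of the norm of `b(α)` from `ℚ(α)` to `ℚ`: the product of `|b(y)|` over the
conjugates `y` of the algebraic integer `α` over `ℚ`. -/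
noncomputable def absNorm (b : ℤ[X]) (α : ℂ) : ℝ :=
  (((minpoly ℤ α).map (Int.castRingHom ℂ)).roots.map fun y => ‖aeval y b‖).prod

/-- No quotient of two distinct conjugates of `α` over `F` is a root of unity. -/
def PowersDistinct (F : IntermediateField ℚ ℂ) (α : ℂ) : Prop :=
  ∀ z ∈ (minpoly F α).rootSet ℂ, ∀ z' ∈ (minpoly F α).rootSet ℂ, z ≠ z' →
    ∀ j : ℕ, 1 ≤ j → z ^ j ≠ z' ^ j

/-- The division group `Γ_div` of `Γ`. -/
def divGroup (Γ : Subgroup ℂˣ) : Set ℂ :=
  {z : ℂ | z ≠ 0 ∧ ∃ n : ℕ, 1 ≤ n ∧ ∃ g ∈ Γ, (g : ℂ) = z ^ n}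

/-- The field `ℚ(Γ_div)`. -/
noncomputable def divField (Γ : Subgroup ℂˣ) : IntermediateField ℚ ℂ :=
  IntermediateField.adjoin ℚ (divGroup Γ)

/-- **Rémond's inequality from large norms**, uniformly in the product of cyclotomic polynomials. -/
theorem result :
    (∀ (F : IntermediateField ℚ ℂ) (α : ℂ), IsIntegral ℤ α → ∀ 𝒟 : Finset ℕ, 𝒟.Nonempty →
      (∀ m ∈ 𝒟, 0 < m) → ∀ d t : ℕ, d = (minpoly F α).natDegree → t = ∑ m ∈ 𝒟, Nat.totient m →
      t ≤ d → ∀ ℓ : ℝ,
      ℓ = Real.log (absNorm (∏ m ∈ 𝒟, cyclotomic m ℤ) α) / (minpoly ℤ α).natDegree →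
        (80 * (Real.sqrt (d * t) * (1 + Real.log d)) ≤ d * ℓ →
          min ℓ (ℓ ^ 2 / (1 + Real.log d)) / (1600 * t) ≤ height α) ∧
        (0 < height α → PowersDistinct F α → (∀ m ∈ 𝒟, ∀ e, e ∣ m → e ∈ 𝒟) →
          200 * Real.sqrt (d * t) ≤ d * ℓ →
          min (1 + Real.log d) ((d * ℓ / (200 * Real.sqrt (d * t))) ^ 4 / (1 + Real.log d) ^ 3) ≤
            d * height α)) ∧
    ∀ (Γ : Subgroup ℂˣ) (α : ℂ), IsIntegral ℤ α → 0 < height α →
      PowersDistinct (divField Γ) α → ∀ d q : ℕ, d = (minpoly (divField Γ) α).natDegree → 1 ≤ q →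
      q ≤ d →
      200 * (Real.sqrt (q / d) * (1 + Real.log d) ^ (3 / 4 : ℝ)) ≤
        Real.log (absNorm (X ^ q - 1) α) / (minpoly ℤ α).natDegree →
      1 / d ≤ height α := by
  have hmain := fun (F : IntermediateField ℚ ℂ) (α : ℂ) (hα : IsIntegral ℤ α) =>
    Pool.Agent.V1156.RC.main_rel F hα
  constructor
  · intro F α hα 𝒟 hne hpos d t hd ht htd ℓ hℓ
    have hd0 : 0 < d := by
      rw [hd]
      exact minpoly.natDegree_pos (hα.tower_top : IsIntegral F α)
    have hd1 : (1:ℝ) ≤ d := by exact_mod_cast hd0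
    have hdne : (d:ℝ) ≠ 0 := by linarith
    have hln : 0 ≤ Real.log d := Real.log_nonneg hd1
    have ht1 : 1 ≤ t := by
      obtain ⟨m, hm⟩ := hne
      rw [ht]
      exact le_trans (Nat.totient_pos.mpr (hpos m hm))
        (Finset.single_le_sum (f := fun m => Nat.totient m) (fun _ _ => Nat.zero_le _) hm)
    have ht1' : (1:ℝ) ≤ t := by exact_mod_cast ht1
    obtain ⟨H1, H2⟩ := hmain F α hα 𝒟 hne hpos d t hd ht htd (d * ℓ) (by rw [hℓ]; rfl)
    refine ⟨fun h => ?_, fun hh hnd hcl h => H2 hh hnd hcl h⟩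
    have h1 := H1 h
    have e1 : min (d * ℓ) ((d * ℓ) ^ 2 / (d * (1 + Real.log d))) =
        d * min ℓ (ℓ ^ 2 / (1 + Real.log d)) := by
      have e2 : (d * ℓ) ^ 2 / (d * (1 + Real.log d)) = d * (ℓ ^ 2 / (1 + Real.log d)) := by
        have : (1 + Real.log d) ≠ 0 := by linarith
        field_simp
      rw [e2, mul_min_of_nonneg _ _ (by linarith)]
    rw [e1, mul_div_assoc] at h1
    exact le_of_mul_le_mul_left h1 (by linarith)
  · intro Γ α hα hh hnd d q hd hq hqd h
    have hd1 : (1:ℝ) ≤ d := by exact_mod_cast hq.trans hqd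
    have hq1 : (1:ℝ) ≤ q := by exact_mod_cast hq
    have hln : 0 ≤ Real.log d := Real.log_nonneg hd1
    set ℓ : ℝ := Real.log (absNorm (X ^ q - 1) α) / (minpoly ℤ α).natDegree with hℓ
    have h1 := (hmain (divField Γ) α hα q.divisors ⟨1, Nat.one_mem_divisors.mpr (by omega)⟩
      (fun m hm => Nat.pos_of_mem_divisors hm) d q hd (Nat.sum_totient q).symm hqd (d * ℓ) (by
        rw [hℓ, prod_cyclotomic_eq_X_pow_sub_one (by omega) ℤ]; rfl)).2 hh hnd
      (fun m hm e he => by
        rw [Nat.mem_divisors] at hm ⊢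
        exact ⟨he.trans hm.1, hm.2⟩)
    set l : ℝ := 1 + Real.log d with hl
    have hl1 : 1 ≤ l := by linarith
    set s := Real.sqrt (d * q) with hs
    have hs0 : 0 < s := Real.sqrt_pos.mpr (by positivity)
    have hsd : d * Real.sqrt (q / d) = s := by
      have : (d * q : ℝ) = d ^ 2 * (q / d) := by field_simp
      rw [hs, this, Real.sqrt_mul (by positivity), Real.sqrt_sq (by linarith)]
    set u : ℝ := l ^ (3 / 4 : ℝ) with hu
    have hu1 : 1 ≤ u := Real.one_le_rpow hl1 (by norm_num)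
    have hu4 : u ^ 4 = l ^ 3 := by
      rw [hu, ← Real.rpow_natCast, ← Real.rpow_mul (by linarith), ← Real.rpow_natCast]
      norm_num
    have h2 : 200 * (s * u) ≤ d * ℓ := by
      calc 200 * (s * u) = d * (200 * (Real.sqrt (q / d) * u)) := by rw [← hsd]; ring
        _ ≤ d * ℓ := mul_le_mul_of_nonneg_left h (by linarith)
    have h3 := h1 (by nlinarith)
    rw [div_le_iff₀ (by linarith), mul_comm]
    refine le_trans (le_min hl1 ?_) h3
    rw [le_div_iff₀ (by positivity), one_mul, ← hu4]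
    refine pow_le_pow_left₀ (by positivity) ?_ 4
    rw [le_div_iff₀ (by positivity)]
    linarith

end Pool.Agent.Results.MP_f61260_nt.CyclotomicNorms
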