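import Mathlib
import Pool.Agent.V1156.RL.Main

/-!
# Rémond's inequality from one factor modulo `q` of the minimal polynomial

Let `F` be any field of complex numbers, for instance `F = ℚ(Γ_div)` for a subgroup `Γ` of `ℂ*`. Let
`α` be an algebraic integer, `f` its minimal polynomial over `F`, `d` the degree of `f` (that is
`d = D_Γ(α)` for `F = ℚ(Γ_div)`), and `N` the number of distinct `m`-th powers of the zeros of `f`
(so `N = d` if no quotient of two distinct zeros is an `m`-th root of unity). Integral means: with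
coefficients that are algebraic integers.

Let `q ≥ 2` and `m ≥ 1` be integers, and let `f ≡ P R` modulo `q`, where `P` and `R` are integral
polynomials over `F`, coprime modulo `q`, and `P` is monic of degree `a`. Nothing is assumed about
`R`. Suppose that

* `P` divides `G (X ^ m)` modulo `q` for a monic polynomial `G` over `F` of degree `D ≥ 1`, or
* `q = p` is a prime number, `m = p ^ t` and `P` divides `H ^ m` modulo `p` for an integral monic
  polynomial `H` over `F` of degree `D ≥ 1`.

Then `a (a N - 2 D d) log q ≤ D d ^ 2 (log N + 2 m N h(α))`. If `4 D d ≤ a N` and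
`4 D d ^ 2 log N ≤ a ^ 2 N log q`, then `h(α) ≥ a ^ 2 log q / (8 D m d ^ 2)`.

Let `κ > 0`, `a = m D ≥ κ d`, `4 d ≤ m N` and `4 d ^ 2 log N ≤ a m N log q` (for `N = d` the last two
conditions hold if `m ≥ 4` and `q ^ m ≥ d ^ (4 / κ)`). Then
`h(α) ≥ (κ log 2 / 8) / d`. So Rémond's inequality holds, with a constant that does not depend on the
group `Γ`, as soon as `f` has, modulo some `q`, a factor which is a polynomial in `X ^ m` (or an
`m`-th power), coprime to the complementary factor, and of degree at least `κ d`.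

Method: for every valuation ring of `ℂ` where `q` is not a unit exactly `a` of the `d` conjugates
belong to `P`, and they lie over at least `a N / d` of the `m`-th powers. With auxiliary polynomials
that depend on the valuation ring it follows that the Vandermonde determinant of the `m`-th powers is
divisible in the ring of all algebraic integers by `q ^ (∑ j < N, ⌊(j - e) / D⌋)`,
`e = N - ⌈a N / d⌉`; its norm from the Galois closure of `ℚ(α)` to `ℚ` is bounded from above by
Hadamard's inequality at every embedding.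
-/

set_option autoImplicit false

open Polynomial

namespace Pool.Agent.Results.MP_f61260_nt.FactorsModQ

/-- The absolute logarithmic Weil height of an algebraic integer. -/
noncomputable def height (α : ℂ) : ℝ :=
  Real.log ((minpoly ℤ α).map (Int.castRingHom ℂ)).mahlerMeasure / (minpoly ℤ α).natDegree

/-- The number of distinct values of `z ^ m` for the conjugates `z` of `α` over `F`. -/
noncomputable def powConj (F : IntermediateField ℚ ℂ) (α : ℂ) (m : ℕ) : ℕ :=
  ((fun z : ℂ => z ^ m) '' ((minpoly F α).rootSet ℂ)).ncard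

/-- The coefficients of `P` are algebraic integers. -/
def IntCoeff {F : IntermediateField ℚ ℂ} (P : F[X]) : Prop :=
  ∀ i, IsIntegral ℤ ((P.coeff i : F) : ℂ)

/-- Modulo `q`, the minimal polynomial of `α` over `F` is the product of two coprime integral
polynomials `P` and `R`, where `P` is monic of degree `a` and divides `Q` modulo `q`. -/
def DividesFactor (F : IntermediateField ℚ ℂ) (α : ℂ) (q a : ℕ) (Q : F[X]) : Prop :=
  ∃ P R U W A B₁ B₂ B₃ : F[X], (IntCoeff P ∧ IntCoeff R ∧ IntCoeff U ∧ IntCoeff W ∧ IntCoeff A ∧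
    IntCoeff B₁ ∧ IntCoeff B₂ ∧ IntCoeff B₃) ∧ P.Monic ∧ P.natDegree = a ∧
    minpoly F α = P * R + C (q : F) * B₁ ∧ U * P + W * R = 1 + C (q : F) * B₂ ∧
    Q = A * P + C (q : F) * B₃

/-- Modulo `q`, the minimal polynomial of `α` over `F` has a factor of degree `a`, coprime to the
complementary factor, that divides a monic polynomial of degree `D` in `X ^ m`; or `q` is a prime
number, `m` a power of `q`, and the factor divides the `m`-th power of an integral monic polynomial
of degree `D`. -/
def PowerFactor (F : IntermediateField ℚ ℂ) (α : ℂ) (q m a D : ℕ) : Prop :=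
  (∃ G : F[X], G.Monic ∧ G.natDegree = D ∧ DividesFactor F α q a (G.comp (X ^ m))) ∨
    (q.Prime ∧ (∃ t : ℕ, m = q ^ t) ∧ ∃ H : F[X], H.Monic ∧ IntCoeff H ∧ H.natDegree = D ∧
      DividesFactor F α q a (H ^ m))

/-- The division group `Γ_div` of `Γ`. -/
def divGroup (Γ : Subgroup ℂˣ) : Set ℂ :=
  {z : ℂ | z ≠ 0 ∧ ∃ n : ℕ, 1 ≤ n ∧ ∃ g ∈ Γ, (g : ℂ) = z ^ n}

/-- The field `ℚ(Γ_div)`. -/
noncomputable def divField (Γ : Subgroup ℂˣ) : IntermediateField ℚ ℂ :=
  IntermediateField.adjoin ℚ (divGroup Γ)

/-- **Height lower bounds from one factor modulo `q`, relative to an arbitrary field, in particular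
relative to `ℚ(Γ_div)`.** -/
theorem result :
    (∀ (F : IntermediateField ℚ ℂ) (α : ℂ), IsIntegral ℤ α →
      ∀ q m a D : ℕ, 2 ≤ q → 1 ≤ m → 1 ≤ D → PowerFactor F α q m a D →
      ∀ d N : ℕ, d = (minpoly F α).natDegree → N = powConj F α m →
        (a : ℝ) * (a * N - 2 * D * d) * Real.log q ≤
          D * d ^ 2 * (Real.log N + 2 * m * N * height α) ∧
        (4 * D * d ≤ a * N → 4 * D * d ^ 2 * Real.log N ≤ (a : ℝ) ^ 2 * N * Real.log q →
          (a : ℝ) ^ 2 * Real.log q / (8 * D * m * d ^ 2) ≤ height α)) ∧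
    (∀ (Γ : Subgroup ℂˣ) (α : ℂ), IsIntegral ℤ α →
      ∀ q m a D : ℕ, 2 ≤ q → 1 ≤ m → 1 ≤ D → PowerFactor (divField Γ) α q m a D →
      ∀ d N : ℕ, d = (minpoly (divField Γ) α).natDegree → N = powConj (divField Γ) α m →
      ∀ κ : ℝ, 0 < κ → a = m * D → κ * d ≤ a → 4 * d ≤ m * N →
        4 * (d : ℝ) ^ 2 * Real.log N ≤ a * m * N * Real.log q →
        ∀ f : ℤ[X], Irreducible f → aeval α f = 0 →
          (κ * Real.log 2 / 8) / (d : ℝ) ≤
            Real.log ((f.map (Int.castRingHom ℂ)).mahlerMeasure) / (f.natDegree : ℝ)) := by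
  have main : ∀ (F : IntermediateField ℚ ℂ) (α : ℂ), IsIntegral ℤ α →
      ∀ q m a D : ℕ, 2 ≤ q → 1 ≤ m → 1 ≤ D → PowerFactor F α q m a D →
      ∀ d N : ℕ, d = (minpoly F α).natDegree → N = powConj F α m →
        0 < N ∧ N ≤ d ∧ (a : ℝ) * (a * N - 2 * D * d) * Real.log q ≤
          D * d ^ 2 * (Real.log N + 2 * (m * (N * height α))) := by
    intro F α hα q m a D hq hm hD hfac d N hd hN
    rcases hfac with ⟨G, hGm, hGd, hfac⟩ | ⟨hp, ⟨t, rfl⟩, H, hHm, hHi, hHd, hfac⟩
    · have h := Pool.Agent.V1156.RL.rel_factor hα (m := m) (D := D) (by omega) (by omega) hfac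
        (G.map (algebraMap F ℂ)) (hGm.map _) (by rw [hGm.natDegree_map]; exact hGd)
        (Pool.Agent.V1156.RL.value_comp F α q m G)
      rw [hd, hN]
      exact h
    · obtain ⟨G, hGm, hGd, hGv⟩ := Pool.Agent.V1156.RL.value_pow hα hp t H hHm hHi
      have h := Pool.Agent.V1156.RL.rel_factor hα (m := q ^ t) (D := D) (by omega) (by omega) hfac
        G hGm (hGd.trans hHd) hGv
      rw [hd, hN]
      exact h
  have bound : ∀ (F : IntermediateField ℚ ℂ) (α : ℂ), IsIntegral ℤ α →
      ∀ q m a D : ℕ, 2 ≤ q → 1 ≤ m → 1 ≤ D → PowerFactor F α q m a D →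
      ∀ d N : ℕ, d = (minpoly F α).natDegree → N = powConj F α m →
        4 * D * d ≤ a * N → 4 * D * d ^ 2 * Real.log N ≤ (a : ℝ) ^ 2 * N * Real.log q →
          (a : ℝ) ^ 2 * Real.log q / (8 * D * m * d ^ 2) ≤ height α := by
    intro F α hα q m a D hq hm hD hfac d N hd hN h1 h2
    obtain ⟨hN0, hNd, h3⟩ := main F α hα q m a D hq hm hD hfac d N hd hN
    have hlq : 0 < Real.log q := Real.log_pos (by exact_mod_cast (by omega : 1 < q))
    have hN1 : (0:ℝ) < N := by exact_mod_cast hN0
    have hd1 : (0:ℝ) < d := by exact_mod_cast (by omega : 0 < d)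
    have hD1 : (0:ℝ) < D := by exact_mod_cast (by omega : 0 < D)
    have hm1 : (0:ℝ) < m := by exact_mod_cast (by omega : 0 < m)
    have ha0 : (0:ℝ) ≤ a := Nat.cast_nonneg _
    have h1' : 4 * (D : ℝ) * d ≤ a * N := by exact_mod_cast h1
    have h4 : (a : ℝ) * (a * N / 2) * Real.log q ≤
        (a : ℝ) * (a * N - 2 * D * d) * Real.log q :=
      mul_le_mul_of_nonneg_right (mul_le_mul_of_nonneg_left (by linarith) ha0) hlq.le
    have h5 : N * ((a : ℝ) ^ 2 * Real.log q) ≤ N * (height α * (8 * D * m * d ^ 2)) := by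
      nlinarith
    have h6 := le_of_mul_le_mul_left h5 hN1
    rwa [div_le_iff₀ (by positivity)]
  refine ⟨fun F α hα q m a D hq hm hD hfac d N hd hN => ⟨?_, bound F α hα q m a D hq hm hD hfac
    d N hd hN⟩, ?_⟩
  · obtain ⟨-, -, h3⟩ := main F α hα q m a D hq hm hD hfac d N hd hN
    refine h3.trans (le_of_eq ?_)
    ring
  · intro Γ α hα q m a D hq hm hD hfac d N hd hN κ hκ haD hκa h4 h5 f hf h0
    obtain ⟨hN0, hNd, -⟩ := main (divField Γ) α hα q m a D hq hm hD hfac d N hd hN
    have hd1 : (0:ℝ) < d := by exact_mod_cast (by omega : 0 < d)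
    have hD1 : (0:ℝ) < D := by exact_mod_cast (by omega : 0 < D)
    have hm1 : (0:ℝ) < m := by exact_mod_cast (by omega : 0 < m)
    have haD' : (a : ℝ) = m * D := by rw [haD]; push_cast; ring
    have hlq : Real.log 2 ≤ Real.log q :=
      Real.log_le_log two_pos (by exact_mod_cast hq)
    have hl2 : 0 < Real.log 2 := Real.log_pos one_lt_two
    have hb := bound (divField Γ) α hα q m a D hq hm hD hfac d N hd hN
      (by
        calc 4 * D * d = D * (4 * d) := by ring
          _ ≤ D * (m * N) := Nat.mul_le_mul_left _ h4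
          _ = a * N := by rw [haD]; ring)
      (by
        have := mul_le_mul_of_nonneg_left h5 hD1.le
        calc 4 * (D : ℝ) * d ^ 2 * Real.log N = D * (4 * (d : ℝ) ^ 2 * Real.log N) := by ring
          _ ≤ D * (a * m * N * Real.log q) := this
          _ = (a : ℝ) ^ 2 * N * Real.log q := by rw [haD']; ring)
    rw [Pool.Agent.TH860.LP.hgt_eq hα f hf h0]
    refine le_trans ?_ hb
    have ha1 : (0:ℝ) < a := by rw [haD']; positivity
    have e1 : (a : ℝ) ^ 2 * Real.log q / (8 * D * m * d ^ 2) = a * Real.log q / (8 * d ^ 2) := by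
      rw [haD']
      field_simp
    rw [e1, div_div, div_le_div_iff₀ (by positivity) (by positivity)]
    have h6 : κ * Real.log 2 * d ≤ a * Real.log q := by
      calc κ * Real.log 2 * d = (κ * d) * Real.log 2 := by ring
        _ ≤ a * Real.log 2 := mul_le_mul_of_nonneg_right hκa hl2.le
        _ ≤ a * Real.log q := mul_le_mul_of_nonneg_left hlq ha1.le
    have h7 := mul_le_mul_of_nonneg_right h6 (by positivity : (0:ℝ) ≤ 8 * d)
    calc κ * Real.log 2 * (8 * (d : ℝ) ^ 2) = κ * Real.log 2 * d * (8 * d) := by ring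
      _ ≤ a * Real.log q * (8 * d) := h7

end Pool.Agent.Results.MP_f61260_nt.FactorsModQ
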