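import Mathlib
import Pool.Agent.V1156.RK.Ms3

/-!
# Rémond's inequality: mean squares and norms of linear forms with coefficients in `ℚ(Γ_div)`

Let `F` be a subfield of `ℂ`, for instance `F = ℚ(Γ_div)` for a group `Γ` of nonzero algebraic
numbers. Let `α` be an algebraic unit and `S` a finite set of `k` numbers, each `x` in `S` a product
of at most `D(x)` conjugates of `α` over `ℚ` and inverses of such conjugates, and let `N ≥ 1` be such
that all the quotients `x / y` of two distinct members of `S` have degree at least `N` over `F`. Let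

  `β = ∑_{x ∈ S} a_x x ∈ L`

with coefficients `a_x` in `F ∩ L`, not all `0`, where `L` is a Galois number field which contains the
conjugates of `α`. Let `0 < ε ≤ 1`.

* If the mean of `|σ β| ^ 2 / ∑ |σ a_x| ^ 2` over all embeddings `σ` of `L` in `ℂ` is at most `1 - ε`
  then `ε ^ 2 ≤ 128 k (∑ D(x)) h(α) + 6 k ^ 2 (1 + 2 log (2 N)) / N`.
* If `β ≠ 0` and the geometric mean of `|σ β| ^ 2 / ∑ |σ a_x| ^ 2` is at least `1 + ε` then
  `ε ^ 2 ≤ 1288 k (∑ D(x)) h(α) + 64 k ^ 2 (1 + 2 log (2 N)) / N`.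

So if the height of `α` is small then the mean square of every such linear form is at least about
`∑ |σ a_x| ^ 2`, and its norm is at most about the norm of `(∑ |σ a_x| ^ 2) ^ (1 / 2)`, as for a form
in random numbers of absolute value `1`. The trivial bound for the geometric mean is `k`, up to the
height.

Consequences for Rémond's inequality, with `F = ℚ(Γ_div)` and `D_Γ(α)` the degree of `α` over `F`:
let `S` be a set of `k ≤ √D_Γ(α)` conjugates of `α` over `ℚ` whose quotients have degree at least `N`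
over `F`.

* If some linear form in `S` with coefficients in `F` has mean at most `1 - ε` and
  `12 k ^ 2 (1 + 2 log (2 N)) ≤ ε ^ 2 N` then `D_Γ(α) h(α) ≥ ε ^ 2 / 256`.
* If some linear form in `S` with coefficients in `F` has geometric mean at least `1 + ε` and
  `128 k ^ 2 (1 + 2 log (2 N)) ≤ ε ^ 2 N` then `D_Γ(α) h(α) ≥ ε ^ 2 / 2576`.

Method: let `H` be the group of the automorphisms of `L` over `F ∩ L`. For every embedding `σ` the
numbers `σ(ρ(β))`, `ρ ∈ H`, are the values of one linear form, with the coefficients `σ(a_x)`, at the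
points `(σ(ρ(x)))_x`. The mean of `|∑ a_x z_x| ^ 2` for the normalized points is `∑ |a_x| ^ 2`, up to
the off-diagonal entries of the Gram matrix, which are small on the average over `σ` by the energy
inequality.
-/

set_option autoImplicit false

open Polynomial Module

namespace Pool.Agent.Results.MP_f61260_nt.MeanSquaresAndNorms

/-- The absolute logarithmic Weil height of an algebraic integer. -/
noncomputable def height (α : ℂ) : ℝ :=
  Real.log ((minpoly ℤ α).map (Int.castRingHom ℂ)).mahlerMeasure / (minpoly ℤ α).natDegree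

/-- `α` is an algebraic unit: an algebraic integer of norm `± 1`. -/
def IsAlgebraicUnit (α : ℂ) : Prop := IsIntegral ℤ α ∧ |(minpoly ℤ α).coeff 0| = 1

/-- The conjugates of the algebraic integer `α` over `ℚ`. -/
def IsConjugate (α z : ℂ) : Prop := aeval z (minpoly ℤ α) = 0

/-- Every `x` in `S` is a product of at most `D x` conjugates of `α` over `ℚ`, and inverses of
conjugates. -/
def Monomials (α : ℂ) (S : Finset ℂ) (D : ℂ → ℕ) : Prop :=
  ∀ x ∈ S, ∃ l : List ℂ, l.length ≤ D x ∧ (∀ z ∈ l, IsConjugate α z ∨ IsConjugate α z⁻¹) ∧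
    x = l.prod

/-- All quotients of two distinct elements of `S` have degree at least `N` over `F` (a quotient which
is not algebraic over `F` has degree `0` here). -/
def QuotientDegrees (F : IntermediateField ℚ ℂ) (S : Finset ℂ) (N : ℝ) : Prop :=
  ∀ x ∈ S, ∀ y ∈ S, x ≠ y → N ≤ (minpoly F (x / y)).natDegree

/-- The number field `L`, with the embedding `v` in `ℂ`, contains the conjugates of `α`, the numbers
`v (a x)` lie in `F` for `x` in `S` and are not all `0`, and `v β = ∑ v (a x) x`. -/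
def IsLinearForm (F : IntermediateField ℚ ℂ) (α : ℂ) (S : Finset ℂ) (L : Type) [Field L]
    (v : L →+* ℂ) (a : ℂ → L) (β : L) : Prop :=
  (∀ z : ℂ, IsConjugate α z → ∃ y : L, v y = z) ∧ (∀ x ∈ S, v (a x) ∈ F) ∧
    (∃ x ∈ S, a x ≠ 0) ∧ v β = ∑ x ∈ S, v (a x) * x

/-- The number `|σ β| ^ 2 / ∑ |σ (a x)| ^ 2`. -/
noncomputable def ratio (S : Finset ℂ) {L : Type} [Field L] (a : ℂ → L) (β : L) (σ : L →+* ℂ) : ℝ :=
  ‖σ β‖ ^ 2 / ∑ x ∈ S, ‖σ (a x)‖ ^ 2

/-- The mean of a function of the embeddings of `L` in `ℂ`. -/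
noncomputable def mean (L : Type) [Field L] [NumberField L] (f : (L →+* ℂ) → ℝ) : ℝ :=
  (∑ σ : L →+* ℂ, f σ) / finrank ℚ L

/-- The division group `Γ_div` of `Γ`. -/
def divGroup (Γ : Subgroup ℂˣ) : Set ℂ :=
  {z : ℂ | z ≠ 0 ∧ ∃ n : ℕ, 1 ≤ n ∧ ∃ g ∈ Γ, (g : ℂ) = z ^ n}

/-- The field `ℚ(Γ_div)`. -/
noncomputable def divField (Γ : Subgroup ℂˣ) : IntermediateField ℚ ℂ :=
  IntermediateField.adjoin ℚ (divGroup Γ)

/-- The degree `D_Γ(α)` of `α` over `ℚ(Γ_div)`. -/
noncomputable def degree (Γ : Subgroup ℂˣ) (α : ℂ) : ℕ := (minpoly (divField Γ) α).natDegree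

lemma mean_eq (L : Type) [Field L] [NumberField L] (f : (L →+* ℂ) → ℝ) :
    mean L f = (∑ σ : L →ₐ[ℚ] ℂ, f (σ : L →+* ℂ)) / finrank ℚ L := by
  unfold mean
  congr 1
  refine Fintype.sum_equiv (RingHom.equivRatAlgHom L ℂ) _ _ fun σ => ?_
  rfl

lemma main (F : IntermediateField ℚ ℂ) {α : ℂ} (hα : IsAlgebraicUnit α) (S : Finset ℂ) (D : ℂ → ℕ)
    (hS : Monomials α S D) {N : ℝ} (hN1 : 1 ≤ N) (hN : QuotientDegrees F S N) (L : Type) [Field L]
    [NumberField L] [IsGalois ℚ L] (v : L →+* ℂ) (a : ℂ → L) (β : L)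
    (h : IsLinearForm F α S L v a β) {ε : ℝ} (hε : 0 < ε) (hε1 : ε ≤ 1) :
    (mean L (ratio S a β) ≤ 1 - ε →
      ε ^ 2 ≤ 128 * S.card * (∑ x ∈ S, (D x : ℝ)) * height α +
        6 * (S.card : ℝ) ^ 2 * (1 + 2 * Real.log (2 * N)) / N) ∧
    (β ≠ 0 → Real.log (1 + ε) ≤ mean L (fun σ => Real.log (ratio S a β σ)) →
      ε ^ 2 ≤ 1288 * S.card * (∑ x ∈ S, (D x : ℝ)) * height α +
        64 * (S.card : ℝ) ^ 2 * (1 + 2 * Real.log (2 * N)) / N) := by
  obtain ⟨hi, hc0⟩ := hα
  have hp := minpoly.irreducible hi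
  have hm := minpoly.monic hi
  obtain ⟨hconj, haF, hane, hβ⟩ := h
  have hht : 0 ≤ height α := by
    unfold height
    apply div_nonneg _ (Nat.cast_nonneg _)
    exact Real.log_nonneg (Polynomial.one_le_mahlerMeasure_of_ne_zero (minpoly.ne_zero hi))
  set t : ℝ := S.card * (∑ x ∈ S, (D x : ℝ)) *
    (Real.log (Pool.Agent.H388SL.MM (minpoly ℤ α)) / (minpoly ℤ α).natDegree) with ht
  set q : ℝ := (S.card : ℝ) ^ 2 * (2 * ((1 + 2 * Real.log (2 * N)) / N)) with hq
  have hth : t = S.card * (∑ x ∈ S, (D x : ℝ)) * height α := rfl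
  have ht0 : 0 ≤ t := by
    rw [hth]
    have : 0 ≤ ∑ x ∈ S, (D x : ℝ) := Finset.sum_nonneg fun _ _ => Nat.cast_nonneg _
    positivity
  have hq6 : 6 * (S.card : ℝ) ^ 2 * (1 + 2 * Real.log (2 * N)) / N = 3 * q := by
    rw [hq]; ring
  have hq64 : 64 * (S.card : ℝ) ^ 2 * (1 + 2 * Real.log (2 * N)) / N = 32 * q := by
    rw [hq]; ring
  have ht128 : 128 * S.card * (∑ x ∈ S, (D x : ℝ)) * height α = 128 * t := by
    rw [hth]; ring
  have ht1288 : 1288 * S.card * (∑ x ∈ S, (D x : ℝ)) * height α = 1288 * t := by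
    rw [hth]; ring
  rw [hq6, hq64, ht128, ht1288]
  have key : ∀ θ : ℝ, 0 < θ → θ ≤ 1 →
      (1 - 3 / 2 * θ - (20 * t + q / 2) / θ - 4 * t ≤ mean L (ratio S a β)) ∧
      (β ≠ 0 → mean L (fun σ => Real.log (ratio S a β σ)) ≤
        2 * t + 2 * θ + (40 * t + q) / θ) := by
    intro θ hθ hθ1
    have h1 := Pool.Agent.V1156.RK.rel_ms (v.toRatAlgHom) F hp hm hc0 hconj S D hS hN1 hN a haF
      hane β hβ hθ hθ1 ht hq
    rw [mean_eq, mean_eq]
    exact h1
  constructor
  · intro hmean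
    have h1 := (key (ε / 3) (by positivity) (by linarith)).1
    have h2 : (20 * t + q / 2) / (ε / 3) = (60 * t + 3 / 2 * q) / ε := by
      field_simp
      ring
    rw [h2] at h1
    have h3 : ε / 2 - 4 * t ≤ (60 * t + 3 / 2 * q) / ε := by linarith
    rw [le_div_iff₀ hε] at h3
    nlinarith
  · intro hβ0 hmean
    have h1 := (key (ε / 8) (by positivity) (by linarith)).2 hβ0
    have h2 : (40 * t + q) / (ε / 8) = (320 * t + 8 * q) / ε := by
      field_simp
      ring
    rw [h2] at h1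
    have h3 : ε / 2 ≤ Real.log (1 + ε) := by
      refine le_trans ?_ (Real.one_sub_inv_le_log_of_pos (by linarith))
      have h4 : 1 - (1 + ε)⁻¹ = ε / (1 + ε) := by
        field_simp
        ring
      rw [h4]
      apply div_le_div_of_nonneg_left hε.le (by linarith) (by linarith)
    have h5 : ε / 4 - 2 * t ≤ (320 * t + 8 * q) / ε := by linarith
    rw [le_div_iff₀ hε] at h5
    nlinarith

theorem result :
    (∀ (F : IntermediateField ℚ ℂ) (α : ℂ), IsAlgebraicUnit α →
      ∀ (S : Finset ℂ) (D : ℂ → ℕ), Monomials α S D → ∀ N : ℝ, 1 ≤ N → QuotientDegrees F S N →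
      ∀ (L : Type) [Field L] [NumberField L] [IsGalois ℚ L] (v : L →+* ℂ) (a : ℂ → L) (β : L),
      IsLinearForm F α S L v a β → ∀ ε : ℝ, 0 < ε → ε ≤ 1 →
      (mean L (ratio S a β) ≤ 1 - ε →
        ε ^ 2 ≤ 128 * S.card * (∑ x ∈ S, (D x : ℝ)) * height α +
          6 * (S.card : ℝ) ^ 2 * (1 + 2 * Real.log (2 * N)) / N) ∧
      (β ≠ 0 → Real.log (1 + ε) ≤ mean L (fun σ => Real.log (ratio S a β σ)) →
        ε ^ 2 ≤ 1288 * S.card * (∑ x ∈ S, (D x : ℝ)) * height α +
          64 * (S.card : ℝ) ^ 2 * (1 + 2 * Real.log (2 * N)) / N)) ∧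
    ∀ (Γ : Subgroup ℂˣ) (α : ℂ), IsAlgebraicUnit α → ∀ S : Finset ℂ, (∀ z ∈ S, IsConjugate α z) →
      S.card ^ 2 ≤ degree Γ α → ∀ N : ℝ, 1 ≤ N → QuotientDegrees (divField Γ) S N →
      ∀ (L : Type) [Field L] [NumberField L] [IsGalois ℚ L] (v : L →+* ℂ) (a : ℂ → L) (β : L),
      IsLinearForm (divField Γ) α S L v a β → ∀ ε : ℝ, 0 < ε → ε ≤ 1 →
      (mean L (ratio S a β) ≤ 1 - ε →
        12 * (S.card : ℝ) ^ 2 * (1 + 2 * Real.log (2 * N)) ≤ ε ^ 2 * N →
        ε ^ 2 / 256 ≤ degree Γ α * height α) ∧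
      (β ≠ 0 → Real.log (1 + ε) ≤ mean L (fun σ => Real.log (ratio S a β σ)) →
        128 * (S.card : ℝ) ^ 2 * (1 + 2 * Real.log (2 * N)) ≤ ε ^ 2 * N →
        ε ^ 2 / 2576 ≤ degree Γ α * height α) := by
  refine ⟨fun F α hα S D hS N hN1 hN L _ _ _ v a β h ε hε hε1 =>
    main F hα S D hS hN1 hN L v a β h hε hε1, ?_⟩
  intro Γ α hα S hSc hSd N hN1 hN L _ _ _ v a β h ε hε hε1
  have hht : 0 ≤ height α := by
    unfold height
    apply div_nonneg _ (Nat.cast_nonneg _)
    exact Real.log_nonneg (Polynomial.one_le_mahlerMeasure_of_ne_zero (minpoly.ne_zero hα.1))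
  have hmon : Monomials α S (fun _ => 1) := by
    intro z hz
    refine ⟨[z], le_rfl, ?_, by simp⟩
    intro w hw
    rw [List.mem_singleton] at hw
    subst hw
    exact Or.inl (hSc w hz)
  have h1 := main (divField Γ) hα S (fun _ => 1) hmon hN1 hN L v a β h hε hε1
  have h2 : ∑ x ∈ S, (((fun _ => 1 : ℂ → ℕ) x : ℕ) : ℝ) = S.card := by simp
  rw [h2] at h1
  set k : ℝ := (S.card : ℝ) with hkd
  have hN0 : 0 < N := by linarith
  have h6 : k ^ 2 ≤ degree Γ α := by
    rw [hkd]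
    exact_mod_cast hSd
  have h7 : k ^ 2 * height α ≤ degree Γ α * height α := mul_le_mul_of_nonneg_right h6 hht
  constructor
  · intro hmean hNε
    have h3 := h1.1 hmean
    have h4 : 6 * k ^ 2 * (1 + 2 * Real.log (2 * N)) / N ≤ ε ^ 2 / 2 := by
      rw [div_le_iff₀ hN0]
      linarith
    have h5 : 128 * k * k * height α = 128 * (k ^ 2 * height α) := by ring
    rw [h5] at h3
    linarith
  · intro hβ0 hmean hNε
    have h3 := h1.2 hβ0 hmean
    have h4 : 64 * k ^ 2 * (1 + 2 * Real.log (2 * N)) / N ≤ ε ^ 2 / 2 := by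
      rw [div_le_iff₀ hN0]
      linarith
    have h5 : 1288 * k * k * height α = 1288 * (k ^ 2 * height α) := by ring
    rw [h5] at h3
    linarith

end Pool.Agent.Results.MP_f61260_nt.MeanSquaresAndNorms
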