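import Mathlib
import Pool.Agent.V1156.RK.Rel

/-!
# Rémond's inequality for units whose conjugates over `ℚ(Γ_div)` span a space of small dimension

Let `F` be a field of algebraic numbers, for instance `F = ℚ(Γ_div)` for a group `Γ` of nonzero
algebraic numbers. Let `α` be an algebraic unit and `S` a finite set of `k` numbers, each `x` in `S` a
product of at most `D(x)` conjugates of `α` over `ℚ` and inverses of such conjugates. Let `r` be the
dimension of the `F`-vector space spanned by `S`, and let `N ≥ 1` be such that all the quotients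
`x / y` of two distinct members of `S` have degree at least `N` over `F`. Then

  `k - r ≤ 40 k (∑ D(x)) h(α) + 2 k ^ 2 (1 + 2 log (2 N)) / N`.

So a linear relation with coefficients in `F` (of any size, any height and any degree over `ℚ`)
between monomials in the conjugates of `α` gives a lower bound for the height of `α`, which does not
depend on `F` and on the degree of `α`, if the quotients of the monomials have large degree over `F`.

Consequences for Rémond's inequality, with `D_Γ(α)` the degree of `α` over `F = ℚ(Γ_div)`: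

* let `r` be the dimension of the `F`-space spanned by the conjugates of `α` over `F`, and let all
  quotients of two distinct of these conjugates have degree at least `N` over `F`. If
  `4 D_Γ(α) ^ 2 (1 + 2 log (2 N)) ≤ (D_Γ(α) - r) N` then `D_Γ(α) h(α) ≥ (D_Γ(α) - r) / (80 D_Γ(α))`;
  in particular `D_Γ(α) h(α) ≥ 1 / 160` if `2 r ≤ D_Γ(α)` and `8 D_Γ(α) (1 + 2 log (2 N)) ≤ N`;
* if `k ≤ √D_Γ(α)` conjugates of `α` over `ℚ` are linearly dependent over `F` and their quotients have
  degree at least `N` over `F`, `4 k ^ 2 (1 + 2 log (2 N)) ≤ N`, then `D_Γ(α) h(α) ≥ 1 / 80`.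

Method: let `L` be a finite Galois extension of `ℚ` which contains everything, `H` the group of its
automorphisms over `F ∩ L` and `σ` an embedding of `L` in `ℂ`. The relations are carried over by all
`σ ρ`, `ρ ∈ H`, with the same coefficients `σ(a_x)`. So the Gram matrix of the vectors of the
normalized numbers `σ(ρ(x)) / |σ(ρ(x))|`, `ρ ∈ H`, is nearly singular on a complex space of dimension
`k - r`, which depends on `σ`. Its off-diagonal entries are the means of the normalized conjugates of
`x / y` over `F ∩ L`; on the average over `σ` they are small by the energy inequality, applied at each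
`σ` to the conjugates over `F ∩ L`.
-/

set_option autoImplicit false

open Polynomial Module

namespace Pool.Agent.Results.MP_f61260_nt.SpansOfConjugates

/-- The absolute logarithmic Weil height of an algebraic integer. -/
noncomputable def height (α : ℂ) : ℝ :=
  Real.log ((minpoly ℤ α).map (Int.castRingHom ℂ)).mahlerMeasure / (minpoly ℤ α).natDegree

/-- `α` is an algebraic unit: an algebraic integer of norm `± 1`. -/
def IsAlgebraicUnit (α : ℂ) : Prop := IsIntegral ℤ α ∧ |(minpoly ℤ α).coeff 0| = 1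

/-- The conjugates of the algebraic integer `α` over `ℚ`. -/
def IsConjugate (α z : ℂ) : Prop := aeval z (minpoly ℤ α) = 0

/-- Every `x` in `S` is a product of at most `D x` conjugates of `α` over `ℚ`, and inverses of
conjugates. -/
def Monomials (α : ℂ) (S : Finset ℂ) (D : ℂ → ℕ) : Prop :=
  ∀ x ∈ S, ∃ l : List ℂ, l.length ≤ D x ∧ (∀ z ∈ l, IsConjugate α z ∨ IsConjugate α z⁻¹) ∧
    x = l.prod

/-- All quotients of two distinct elements of `S` have degree at least `N` over `F`. -/
def QuotientDegrees (F : IntermediateField ℚ ℂ) (S : Finset ℂ) (N : ℝ) : Prop :=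
  ∀ x ∈ S, ∀ y ∈ S, x ≠ y → N ≤ (minpoly F (x / y)).natDegree

/-- The dimension over `F` of the space spanned by `S`. -/
noncomputable def dim (F : IntermediateField ℚ ℂ) (S : Finset ℂ) : ℕ :=
  finrank F (Submodule.span F (S : Set ℂ))

/-- The division group `Γ_div` of `Γ`. -/
def divGroup (Γ : Subgroup ℂˣ) : Set ℂ :=
  {z : ℂ | z ≠ 0 ∧ ∃ n : ℕ, 1 ≤ n ∧ ∃ g ∈ Γ, (g : ℂ) = z ^ n}

/-- The field `ℚ(Γ_div)`. -/
noncomputable def divField (Γ : Subgroup ℂˣ) : IntermediateField ℚ ℂ :=
  IntermediateField.adjoin ℚ (divGroup Γ)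

/-- The degree `D_Γ(α)` of `α` over `ℚ(Γ_div)`. -/
noncomputable def degree (Γ : Subgroup ℂˣ) (α : ℂ) : ℕ := (minpoly (divField Γ) α).natDegree

/-- The conjugates of `α` over `ℚ(Γ_div)`. -/
noncomputable def conjugates (Γ : Subgroup ℂˣ) (α : ℂ) : Finset ℂ :=
  ((minpoly (divField Γ) α).aroots ℂ).toFinset

lemma integral_divField {Γ : Subgroup ℂˣ} (hΓ : ∀ g ∈ Γ, IsAlgebraic ℚ (g : ℂ)) :
    ∀ x ∈ divField Γ, IsIntegral ℚ x := by
  intro x hx
  have h1 : ∀ z ∈ divGroup Γ, IsIntegral ℚ z := by
    rintro z ⟨-, n, hn, g, hg, hgz⟩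
    have h2 : IsIntegral ℚ (z ^ n) := by
      rw [← hgz]
      exact (hΓ g hg).isIntegral
    exact IsIntegral.of_pow hn h2
  have h3 : Algebra.IsAlgebraic ℚ (IntermediateField.adjoin ℚ (divGroup Γ)) :=
    IntermediateField.isAlgebraic_adjoin h1
  have h4 := (h3.isAlgebraic ⟨x, hx⟩).isIntegral
  exact h4.map (IntermediateField.adjoin ℚ (divGroup Γ)).val

lemma main (F : IntermediateField ℚ ℂ) (hF : ∀ x ∈ F, IsIntegral ℚ x) {α : ℂ}
    (hα : IsAlgebraicUnit α) (S : Finset ℂ) (D : ℂ → ℕ) (hS : Monomials α S D) {N : ℝ}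
    (hN1 : 1 ≤ N) (hN : QuotientDegrees F S N) :
    (S.card : ℝ) - dim F S ≤ 40 * S.card * (∑ x ∈ S, (D x : ℝ)) * height α +
      2 * (S.card : ℝ) ^ 2 * (1 + 2 * Real.log (2 * N)) / N := by
  obtain ⟨hi, hc0⟩ := hα
  have hp := minpoly.irreducible hi
  have hm := minpoly.monic hi
  have hd : (0:ℝ) < (minpoly ℤ α).natDegree := by exact_mod_cast minpoly.natDegree_pos hi
  have h1 := Pool.Agent.V1156.RK.rel_span F hF hp hm hc0 S D hS hN1 hN
  have h2 : Real.log (Pool.Agent.H388SL.MM (minpoly ℤ α)) = (minpoly ℤ α).natDegree * height α := by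
    unfold height
    field_simp
    rfl
  rw [h2] at h1
  have h3 : ((minpoly ℤ α).natDegree : ℝ) * ((S.card : ℝ) - dim F S) ≤ (minpoly ℤ α).natDegree *
      (40 * S.card * (∑ x ∈ S, (D x : ℝ)) * height α +
      2 * (S.card : ℝ) ^ 2 * (1 + 2 * Real.log (2 * N)) / N) := by
    refine h1.trans (le_of_eq ?_)
    ring
  exact le_of_mul_le_mul_left h3 hd

theorem result :
    (∀ F : IntermediateField ℚ ℂ, (∀ x ∈ F, IsAlgebraic ℚ x) → ∀ α : ℂ, IsAlgebraicUnit α →
      ∀ (S : Finset ℂ) (D : ℂ → ℕ), Monomials α S D → ∀ N : ℝ, 1 ≤ N → QuotientDegrees F S N →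
      (S.card : ℝ) - dim F S ≤ 40 * S.card * (∑ x ∈ S, (D x : ℝ)) * height α +
        2 * (S.card : ℝ) ^ 2 * (1 + 2 * Real.log (2 * N)) / N) ∧
    ∀ Γ : Subgroup ℂˣ, (∀ g ∈ Γ, IsAlgebraic ℚ (g : ℂ)) → ∀ α : ℂ, IsAlgebraicUnit α →
      (∀ r : ℕ, r = dim (divField Γ) (conjugates Γ α) → ∀ N : ℝ, 1 ≤ N →
        QuotientDegrees (divField Γ) (conjugates Γ α) N →
        (4 * (degree Γ α : ℝ) ^ 2 * (1 + 2 * Real.log (2 * N)) ≤ (degree Γ α - r) * N →
          ((degree Γ α : ℝ) - r) / (80 * degree Γ α) ≤ degree Γ α * height α) ∧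
        (2 * r ≤ degree Γ α → 8 * (degree Γ α : ℝ) * (1 + 2 * Real.log (2 * N)) ≤ N →
          1 / 160 ≤ degree Γ α * height α)) ∧
      (∀ S : Finset ℂ, (∀ z ∈ S, IsConjugate α z) →
        ¬ LinearIndependent (divField Γ) (fun z : S => (z : ℂ)) → ∀ N : ℝ, 1 ≤ N →
        QuotientDegrees (divField Γ) S N → 4 * (S.card : ℝ) ^ 2 * (1 + 2 * Real.log (2 * N)) ≤ N →
        S.card ^ 2 ≤ degree Γ α → 1 / 80 ≤ degree Γ α * height α) := by
  refine ⟨fun F hF α hα S D hS N hN1 hN => main F (fun x hx => (hF x hx).isIntegral) hα S D hS hN1 hN,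
    ?_⟩
  intro Γ hΓ α hα
  have hF := integral_divField hΓ
  set F := divField Γ with hFdef
  have hαF : IsIntegral F α := hα.1.tower_top
  have hht : 0 ≤ height α := by
    unfold height
    apply div_nonneg _ (Nat.cast_nonneg _)
    exact Real.log_nonneg (Polynomial.one_le_mahlerMeasure_of_ne_zero (minpoly.ne_zero hα.1))
  have hd0 : 0 < degree Γ α := minpoly.natDegree_pos hαF
  have hd1 : (1:ℝ) ≤ degree Γ α := by exact_mod_cast hd0
  have key : ∀ r : ℕ, r = dim F (conjugates Γ α) → ∀ N : ℝ, 1 ≤ N →
      QuotientDegrees F (conjugates Γ α) N →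
      4 * (degree Γ α : ℝ) ^ 2 * (1 + 2 * Real.log (2 * N)) ≤ (degree Γ α - r) * N →
        ((degree Γ α : ℝ) - r) / (80 * degree Γ α) ≤ degree Γ α * height α := by
    intro r hr N hN1 hN h
    have hnodup : ((minpoly F α).aroots ℂ).Nodup :=
      nodup_roots ((minpoly.irreducible hαF).separable.map)
    have hcard : (conjugates Γ α).card = degree Γ α := by
      unfold conjugates degree
      rw [Multiset.toFinset_card_of_nodup hnodup, Polynomial.aroots_def,
        ← (IsAlgClosed.splits _).natDegree_eq_card_roots, (minpoly.monic hαF).natDegree_map]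
    have hmon : Monomials α (conjugates Γ α) (fun _ => 1) := by
      intro z hz
      refine ⟨[z], le_rfl, ?_, by simp⟩
      intro w hw
      rw [List.mem_singleton] at hw
      subst hw
      left
      have h1 : aeval w (minpoly F α) = 0 := by
        unfold conjugates at hz
        rw [Multiset.mem_toFinset, Polynomial.mem_aroots] at hz
        exact hz.2
      have h2 : minpoly F α ∣ (minpoly ℤ α).map (algebraMap ℤ F) := by
        apply minpoly.dvd
        rw [aeval_map_algebraMap]
        exact minpoly.aeval ℤ α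
      obtain ⟨A, hA⟩ := h2
      have h3 : aeval w ((minpoly ℤ α).map (algebraMap ℤ F)) = 0 := by
        rw [hA, map_mul, h1, zero_mul]
      rwa [aeval_map_algebraMap] at h3
    have h1 := main F hF hα (conjugates Γ α) (fun _ => 1) hmon hN1 hN
    rw [hcard, ← hr] at h1
    have h2 : ∑ x ∈ conjugates Γ α, (((fun _ => 1 : ℂ → ℕ) x : ℕ) : ℝ) = degree Γ α := by
      simp [hcard]
    rw [h2] at h1
    set d : ℝ := (degree Γ α : ℝ) with hd
    have hN0 : 0 < N := by linarith
    have h3 : 2 * d ^ 2 * (1 + 2 * Real.log (2 * N)) / N ≤ (d - r) / 2 := by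
      rw [div_le_iff₀ hN0]
      linarith
    rw [div_le_iff₀ (by positivity)]
    have h4 : (d - r) / 2 ≤ 40 * d * d * height α := by linarith
    calc d - r = 2 * ((d - r) / 2) := by ring
      _ ≤ 2 * (40 * d * d * height α) := by linarith
      _ = _ := by ring
  refine ⟨fun r hr N hN1 hN => ⟨key r hr N hN1 hN, fun h2r h8 => ?_⟩, ?_⟩
  · have h2r' : 2 * (r : ℝ) ≤ degree Γ α := by exact_mod_cast h2r
    have hN0 : 0 < N := by linarith
    have h1 := key r hr N hN1 hN (by nlinarith)
    refine le_trans ?_ h1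
    rw [le_div_iff₀ (by positivity)]
    linarith
  · intro S hS hdep N hN1 hN h4 hSd
    have hk : 0 < S.card := by
      rw [Finset.card_pos]
      by_contra hcon
      rw [Finset.not_nonempty_iff_eq_empty] at hcon
      subst hcon
      exact hdep linearIndependent_empty_type
    have hk1 : (1:ℝ) ≤ S.card := by exact_mod_cast hk
    have hmon : Monomials α S (fun _ => 1) := by
      intro z hz
      refine ⟨[z], le_rfl, ?_, by simp⟩
      intro w hw
      rw [List.mem_singleton] at hw
      subst hw
      exact Or.inl (hS w hz)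
    have h1 := main F hF hα S (fun _ => 1) hmon hN1 hN
    have h2 : ∑ x ∈ S, (((fun _ => 1 : ℂ → ℕ) x : ℕ) : ℝ) = S.card := by simp
    rw [h2] at h1
    have hdim : dim F S + 1 ≤ S.card := by
      by_contra hcon
      apply hdep
      rw [linearIndependent_iff_card_le_finrank_span]
      have h5 : Set.range (fun z : S => (z : ℂ)) = (S : Set ℂ) := by
        ext z
        simp
      rw [h5, Fintype.card_coe]
      unfold dim at hcon
      unfold Set.finrank
      omega
    have hdim' : (dim F S : ℝ) + 1 ≤ S.card := by exact_mod_cast hdim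
    set k : ℝ := (S.card : ℝ) with hkd
    have hN0 : 0 < N := by linarith
    have h3 : 2 * k ^ 2 * (1 + 2 * Real.log (2 * N)) / N ≤ 1 / 2 := by
      rw [div_le_iff₀ hN0]
      linarith
    have h5 : (1:ℝ) / 2 ≤ 40 * k * k * height α := by linarith
    have h6 : k ^ 2 ≤ degree Γ α := by
      rw [hkd]
      exact_mod_cast hSd
    nlinarith

end Pool.Agent.Results.MP_f61260_nt.SpansOfConjugates
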